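import Pool.Agent.H8.MY.Exp

/-! The edges between sets of vertices in a binomial random graph. -/

set_option autoImplicit false

open scoped Classical ENNReal

open MeasureTheory Measure ProbabilityTheory unitInterval

namespace Pool.Agent.H8.MY

variable {V : Type} [Fintype V]

/-- the probability that all the members of `F` are edges -/
theorem sup_le (p : I) (F : Finset (Sym2 V)) :
    SimpleGraph.binomialRandom V p {G | ∀ e ∈ F, e ∈ G.edgeSet} ≤
      ENNReal.ofReal ((p : ℝ) ^ F.card) := by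
  rw [SimpleGraph.binomialRandom_apply]
  set t : Sym2 V → Set Prop := fun _ => {P | P} with ht
  have hsub : ((fun (G : SimpleGraph V) e ↦ e ∈ G.edgeSet) '' {G | ∀ e ∈ F, e ∈ G.edgeSet}) ⊆
      Set.pi (F : Set (Sym2 V)) t := by
    rintro _ ⟨G, hG, rfl⟩ e he
    exact hG e he
  refine (measure_mono hsub).trans ?_
  rw [infinitePi_pi _ (fun _ _ => (Set.toFinite _).measurableSet)]
  have hterm : ∀ e ∈ F,
      ((toNNReal p • (dirac (¬ e.IsDiag) : Measure Prop) +
        toNNReal (σ p) • (dirac False : Measure Prop)) (t e)) ≤ ENNReal.ofReal p := by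
    intro e _
    have h1 : (dirac False : Measure Prop) (t e) = 0 := by
      rw [dirac_apply]
      refine Set.indicator_of_notMem (fun h => ?_) _
      simp [ht] at h
    have h2 : (dirac (¬ e.IsDiag) : Measure Prop) (t e) ≤ 1 := prob_le_one
    rw [Measure.add_apply, Measure.smul_apply, Measure.smul_apply, h1, smul_zero, add_zero]
    have h3 : ENNReal.ofReal (p : ℝ) = ((toNNReal p : NNReal) : ℝ≥0∞) := by
      rw [ENNReal.ofReal]
      congr 1
      exact Real.toNNReal_of_nonneg p.2.1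
    rw [h3, ENNReal.smul_def, smul_eq_mul]
    calc ((toNNReal p : NNReal) : ℝ≥0∞) * (dirac (¬ e.IsDiag) : Measure Prop) (t e)
        ≤ ((toNNReal p : NNReal) : ℝ≥0∞) * 1 := mul_le_mul_right h2 _
      _ = _ := mul_one _
  refine (Finset.prod_le_prod' hterm).trans ?_
  rw [Finset.prod_const, ENNReal.ofReal_pow p.2.1]

/-- the probability that `Q` contains at least `m` edges -/
theorem many_le (p : I) (Q : Finset (Sym2 V)) (m : ℕ) :
    SimpleGraph.binomialRandom V p {G | m ≤ (Q.filter fun e => e ∈ G.edgeSet).card} ≤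
      ENNReal.ofReal ((Q.card.choose m : ℝ) * (p : ℝ) ^ m) := by
  have hsub : {G : SimpleGraph V | m ≤ (Q.filter fun e => e ∈ G.edgeSet).card} ⊆
      ⋃ F ∈ Q.powersetCard m, {G | ∀ e ∈ F, e ∈ G.edgeSet} := by
    intro G hG
    obtain ⟨F, hF, hFc⟩ := Finset.exists_subset_card_eq hG
    simp only [Set.mem_iUnion]
    refine ⟨F, Finset.mem_powersetCard.2 ⟨hF.trans (Finset.filter_subset _ _), hFc⟩, ?_⟩
    intro e he
    exact (Finset.mem_filter.1 (hF he)).2
  refine (measure_mono hsub).trans ((measure_biUnion_finset_le _ _).trans ?_)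
  have h1 : ∀ F ∈ Q.powersetCard m,
      SimpleGraph.binomialRandom V p {G | ∀ e ∈ F, e ∈ G.edgeSet} ≤
      ENNReal.ofReal ((p : ℝ) ^ m) := by
    intro F hF
    have := sup_le p F
    rwa [(Finset.mem_powersetCard.1 hF).2] at this
  refine (Finset.sum_le_card_nsmul _ _ _ h1).trans ?_
  rw [Finset.card_powersetCard, nsmul_eq_mul, ← ENNReal.ofReal_natCast,
    ← ENNReal.ofReal_mul (Nat.cast_nonneg _)]

/-- the pairs between two sets -/
noncomputable def prs (S U : Finset V) : Finset (Sym2 V) :=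
  (S ×ˢ U).image fun x => s(x.1, x.2)

omit [Fintype V] in
theorem prs_card (S U : Finset V) : (prs S U).card ≤ S.card * U.card :=
  Finset.card_image_le.trans (le_of_eq (Finset.card_product S U))

omit [Fintype V] in
theorem two_mul_prs (G : SimpleGraph V) (S U : Finset V) :
    ((S ×ˢ U).filter fun x => G.Adj x.1 x.2).card ≤
      2 * ((prs S U).filter fun e => e ∈ G.edgeSet).card := by
  set W := (S ×ˢ U).filter fun x => G.Adj x.1 x.2 with hW
  have h1 : (W.image fun x => s(x.1, x.2)) ⊆ (prs S U).filter fun e => e ∈ G.edgeSet := by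
    intro e he
    obtain ⟨x, hx, rfl⟩ := Finset.mem_image.1 he
    rw [hW, Finset.mem_filter] at hx
    rw [Finset.mem_filter]
    exact ⟨Finset.mem_image.2 ⟨x, hx.1, rfl⟩, hx.2⟩
  have h2 : W.card ≤ 2 * (W.image fun x => s(x.1, x.2)).card := by
    refine Finset.card_le_mul_card_image W 2 ?_
    intro e he
    obtain ⟨x, hx, rfl⟩ := Finset.mem_image.1 he
    have : (W.filter fun y => s(y.1, y.2) = s(x.1, x.2)) ⊆ {(x.1, x.2), (x.2, x.1)} := by
      intro y hy
      rw [Finset.mem_filter] at hy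
      rw [Finset.mem_insert, Finset.mem_singleton]
      rcases Sym2.eq_iff.1 hy.2 with h | h
      · exact Or.inl (Prod.ext h.1 h.2)
      · exact Or.inr (Prod.ext h.1 h.2)
    exact (Finset.card_le_card this).trans Finset.card_le_two
  exact h2.trans (Nat.mul_le_mul_left 2 (Finset.card_le_card h1))

/-- one pair of sets -/
theorem pair_le (p : I) (S U : Finset V) (b : ℝ) (m : ℕ) (hm : (m : ℝ) < b / 2 + 1) :
    SimpleGraph.binomialRandom V p
      {G | b ≤ (((S ×ˢ U).filter fun x => G.Adj x.1 x.2).card : ℝ)} ≤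
      ENNReal.ofReal (((S.card * U.card).choose m : ℝ) * (p : ℝ) ^ m) := by
  have hsub : {G : SimpleGraph V | b ≤ (((S ×ˢ U).filter fun x => G.Adj x.1 x.2).card : ℝ)} ⊆
      {G | m ≤ ((prs S U).filter fun e => e ∈ G.edgeSet).card} := by
    intro G hG
    have h1 := two_mul_prs G S U
    have h2 : (((S ×ˢ U).filter fun x => G.Adj x.1 x.2).card : ℝ) ≤
        2 * (((prs S U).filter fun e => e ∈ G.edgeSet).card : ℝ) := by exact_mod_cast h1
    have h3 : b ≤ (((S ×ˢ U).filter fun x => G.Adj x.1 x.2).card : ℝ) := hG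
    have h4 : (m : ℝ) < (((prs S U).filter fun e => e ∈ G.edgeSet).card : ℝ) + 1 := by linarith
    have h5 : m < ((prs S U).filter fun e => e ∈ G.edgeSet).card + 1 := by exact_mod_cast h4
    exact Nat.lt_succ_iff.1 h5
  refine (measure_mono hsub).trans ((many_le p (prs S U) m).trans ?_)
  refine ENNReal.ofReal_le_ofReal ?_
  refine mul_le_mul_of_nonneg_right ?_ (pow_nonneg p.2.1 _)
  exact_mod_cast Nat.choose_le_choose m (prs_card S U)

theorem choose_le_exp (N m : ℕ) (hm : 0 < m) :
    (N.choose m : ℝ) ≤ (Real.exp 1 * N / m) ^ m := by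
  have h1 : (N.choose m : ℝ) ≤ (N : ℝ) ^ m / (m.factorial : ℝ) := Nat.choose_le_pow_div m N
  have h2 := Real.pow_div_factorial_le_exp (m : ℝ) (Nat.cast_nonneg m) m
  have hm0 : (0 : ℝ) < m := by exact_mod_cast hm
  have hf : (0 : ℝ) < (m.factorial : ℝ) := by exact_mod_cast Nat.factorial_pos m
  have h3 : (N : ℝ) ^ m / (m.factorial : ℝ) =
      ((N : ℝ) / m) ^ m * ((m : ℝ) ^ m / (m.factorial : ℝ)) := by
    rw [div_pow]
    field_simp
  have h4 : (Real.exp 1 * N / m) ^ m = ((N : ℝ) / m) ^ m * Real.exp m := by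
    have : Real.exp (m : ℝ) = Real.exp 1 ^ m := by rw [← Real.exp_nat_mul, mul_one]
    rw [this, ← mul_pow]
    congr 1
    ring
  rw [h4]
  refine h1.trans ?_
  rw [h3]
  exact mul_le_mul_of_nonneg_left h2 (by positivity)

/-- the constant `c₁` -/
noncomputable def kc (β : ℝ) : ℝ := β ^ 2 / (4 * Real.exp 11)

theorem term_le (β p : ℝ) (n s u m : ℕ) (hβ : 0 < β) (hβ1 : β ≤ 1) (hp : 0 ≤ p) (hn : 0 < n)
    (hs : 0 < s) (hm : 0 < m) (hmβ : β * (n * p) * s / 2 ≤ m) (_hnp : 0 < (n : ℝ) * p)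
    (hu1 : (u : ℝ) ≤ kc β * n) (hu2 : (u : ℝ) ≤ β / 4 * ((n * p) * s)) :
    (n.choose u : ℝ) * (((s * u).choose m : ℝ) * p ^ m) ≤ Real.exp (-(4 * m)) := by
  have hn0 : (0 : ℝ) < n := by exact_mod_cast hn
  have hs0 : (0 : ℝ) < s := by exact_mod_cast hs
  have hm0 : (0 : ℝ) < m := by exact_mod_cast hm
  rcases Nat.eq_zero_or_pos u with h0 | hu
  · subst h0
    rw [Nat.mul_zero, Nat.choose_eq_zero_of_lt hm]
    simp only [Nat.cast_zero, zero_mul, mul_zero]
    exact (Real.exp_pos _).le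
  have hu0 : (0 : ℝ) < u := by exact_mod_cast hu
  set z : ℝ := 2 * Real.exp 1 * u / (β * n) with hz
  have hz0 : 0 < z := by positivity
  have h1 := choose_le_exp n u hu
  have h2 : (((s * u).choose m : ℝ) * p ^ m) ≤ z ^ m := by
    calc (((s * u).choose m : ℝ) * p ^ m) ≤ (Real.exp 1 * ((s * u : ℕ) : ℝ) / m) ^ m * p ^ m :=
          mul_le_mul_of_nonneg_right (choose_le_exp (s * u) m hm) (pow_nonneg hp _)
      _ = (Real.exp 1 * ((s * u : ℕ) : ℝ) / m * p) ^ m := by rw [mul_pow]
      _ ≤ z ^ m := by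
          refine pow_le_pow_left₀ (by positivity) ?_ _
          rw [hz, div_mul_eq_mul_div, div_le_div_iff₀ hm0 (by positivity)]
          push_cast
          have e1 : 2 * Real.exp 1 * (u : ℝ) * (β * (n * p) * s / 2) ≤
              2 * Real.exp 1 * u * m := mul_le_mul_of_nonneg_left hmβ (by positivity)
          calc Real.exp 1 * ((s : ℝ) * u) * p * (β * n) =
                2 * Real.exp 1 * (u : ℝ) * (β * (n * p) * s / 2) := by ring
            _ ≤ _ := e1
  have hum : 2 * u ≤ m := by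
    have e1 : (2 : ℝ) * u ≤ m := by linarith
    exact_mod_cast e1
  obtain ⟨j, rfl⟩ := Nat.exists_eq_add_of_le hum
  -- the two estimates
  have hz1 : z ≤ Real.exp (-4) := by
    have e1 : z ≤ 2 * Real.exp 1 * kc β / β := by
      rw [hz, div_le_div_iff₀ (by positivity) hβ]
      have := mul_le_mul_of_nonneg_left hu1 (show 0 ≤ 2 * Real.exp 1 * β by positivity)
      calc 2 * Real.exp 1 * (u : ℝ) * β = 2 * Real.exp 1 * β * u := by ring
        _ ≤ 2 * Real.exp 1 * β * (kc β * n) := this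
        _ = _ := by ring
    have e2 : 2 * Real.exp 1 * kc β / β = β * Real.exp (-10) / 2 := by
      rw [kc, show (11 : ℝ) = 1 + 10 by norm_num, Real.exp_add, Real.exp_neg]
      field_simp
      norm_num
    have e3 : Real.exp (-10) ≤ Real.exp (-4) := Real.exp_le_exp.2 (by norm_num)
    have e4 := Real.exp_pos (-10)
    rw [e2] at e1
    nlinarith
  have hz2 : Real.exp 1 * n / u * z ^ 2 ≤ Real.exp (-8) := by
    have e1 : Real.exp 1 * n / u * z ^ 2 = 4 * Real.exp 1 ^ 3 / β ^ 2 * (u / n) := by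
      rw [hz]
      field_simp
      ring
    have e2 : (u : ℝ) / n ≤ kc β := by
      rw [div_le_iff₀ hn0]
      exact hu1
    have e3 : 4 * Real.exp 1 ^ 3 / β ^ 2 * kc β = Real.exp (-8) := by
      rw [kc, ← Real.exp_nat_mul, show ((3 : ℕ) : ℝ) * 1 = 3 by norm_num,
        show (11 : ℝ) = 3 + 8 by norm_num, Real.exp_add, Real.exp_neg]
      field_simp
    rw [e1, ← e3]
    exact mul_le_mul_of_nonneg_left e2 (by positivity)
  calc (n.choose u : ℝ) * (((s * u).choose (2 * u + j) : ℝ) * p ^ (2 * u + j))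
      ≤ (Real.exp 1 * n / u) ^ u * z ^ (2 * u + j) :=
        mul_le_mul h1 h2 (by positivity) (by positivity)
    _ = (Real.exp 1 * n / u * z ^ 2) ^ u * z ^ j := by
        rw [mul_pow, ← pow_mul, mul_assoc, ← pow_add]
    _ ≤ (Real.exp (-8)) ^ u * (Real.exp (-4)) ^ j := by
        refine mul_le_mul ?_ ?_ (by positivity) (by positivity)
        · exact pow_le_pow_left₀ (by positivity) hz2 _
        · exact pow_le_pow_left₀ hz0.le hz1 _
    _ = Real.exp (-(4 * ((2 * u + j : ℕ) : ℝ))) := by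
        rw [← Real.exp_nat_mul, ← Real.exp_nat_mul, ← Real.exp_add]
        congr 1
        push_cast
        ring

/-- With high probability there are few edges between small sets. -/
theorem sparse_prob (p : I) (β : ℝ) (hβ : 0 < β) (hβ1 : β ≤ 1) (hn : 3 ≤ Fintype.card V)
    (hlog : 2 * Real.log (Fintype.card V) ≤ β * (Fintype.card V * (p : ℝ))) :
    SimpleGraph.binomialRandom V p {G | ∃ S U : Finset V, S.Nonempty ∧
      (U.card : ℝ) ≤ kc β * Fintype.card V ∧
      (U.card : ℝ) ≤ β / 4 * ((Fintype.card V * (p : ℝ)) * S.card) ∧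
      β * (Fintype.card V * (p : ℝ)) * S.card ≤
        (((S ×ˢ U).filter fun x => G.Adj x.1 x.2).card : ℝ)} ≤
      ENNReal.ofReal (1 / Fintype.card V) := by
  set N : ℕ := Fintype.card V with hN
  set n : ℝ := (N : ℝ) with hndef
  have hn3 : (3 : ℝ) ≤ n := by rw [hndef]; exact_mod_cast hn
  have hn0 : 0 < n := by linarith
  have hlog0 : 0 < Real.log n := Real.log_pos (by linarith)
  set d : ℝ := n * (p : ℝ) with hd
  have hd0 : 0 < d := by
    by_contra hcon
    push Not at hcon
    nlinarith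
  set mS : ℕ → ℕ := fun s => ⌈β * d * s / 2⌉₊ with hmS
  set q : ℕ → ℕ → ℝ := fun s u => ((s * u).choose (mS s) : ℝ) * (p : ℝ) ^ (mS s) with hq
  have hq0 : ∀ s u, 0 ≤ q s u := by
    intro s u
    have := p.2.1
    simp only [hq]
    positivity
  set QS : Finset (Finset V) := Finset.univ.filter fun S => S.Nonempty with hQS
  set QU : ℕ → Finset (Finset V) := fun s => Finset.univ.filter fun U =>
    (U.card : ℝ) ≤ kc β * n ∧ (U.card : ℝ) ≤ β / 4 * (d * s) with hQU
  have hsub : {G : SimpleGraph V | ∃ S U : Finset V, S.Nonempty ∧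
      (U.card : ℝ) ≤ kc β * n ∧ (U.card : ℝ) ≤ β / 4 * (d * S.card) ∧
      β * d * S.card ≤ (((S ×ˢ U).filter fun x => G.Adj x.1 x.2).card : ℝ)} ⊆
      ⋃ S ∈ QS, ⋃ U ∈ QU S.card,
        {G | β * d * S.card ≤ (((S ×ˢ U).filter fun x => G.Adj x.1 x.2).card : ℝ)} := by
    rintro G ⟨S, U, h1, h2, h3, h4⟩
    simp only [Set.mem_iUnion]
    exact ⟨S, Finset.mem_filter.2 ⟨Finset.mem_univ _, h1⟩, U,
      Finset.mem_filter.2 ⟨Finset.mem_univ _, h2, h3⟩, h4⟩
  refine (measure_mono hsub).trans ((measure_biUnion_finset_le _ _).trans ?_)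
  have hS : ∀ S ∈ QS, SimpleGraph.binomialRandom V p (⋃ U ∈ QU S.card,
        {G | β * d * S.card ≤ (((S ×ˢ U).filter fun x => G.Adj x.1 x.2).card : ℝ)}) ≤
      ENNReal.ofReal ((n + 1) * (1 / n ^ 4) ^ S.card) := by
    intro S hS
    have hSne : S.Nonempty := (Finset.mem_filter.1 hS).2
    have hs1 : 0 < S.card := hSne.card_pos
    have hs0 : (0 : ℝ) < S.card := by exact_mod_cast hs1
    set s : ℕ := S.card with hs
    have hm1 : β * d * s / 2 ≤ mS s := Nat.le_ceil _
    have hm2 : (mS s : ℝ) < β * d * s / 2 + 1 := Nat.ceil_lt_add_one (by positivity)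
    have hm0 : 0 < mS s := Nat.ceil_pos.2 (by positivity)
    refine (measure_biUnion_finset_le _ _).trans ?_
    refine (Finset.sum_le_sum fun U _ => pair_le p S U (β * d * s) (mS s) hm2).trans ?_
    rw [← ENNReal.ofReal_sum_of_nonneg (fun U _ => hq0 s U.card)]
    refine ENNReal.ofReal_le_ofReal ?_
    have e1 : ∑ U ∈ QU s, q s U.card ≤ ∑ u ∈ Finset.range (N + 1), Real.exp (-(4 * mS s)) := by
      calc ∑ U ∈ QU s, q s U.card
          = ∑ U ∈ (Finset.univ : Finset V).powerset,
            (if (U.card : ℝ) ≤ kc β * n ∧ (U.card : ℝ) ≤ β / 4 * (d * s) then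
              q s U.card else 0) := by
            rw [Finset.powerset_univ, hQU, Finset.sum_filter]
        _ = ∑ u ∈ Finset.range (N + 1), N.choose u •
            (if (u : ℝ) ≤ kc β * n ∧ (u : ℝ) ≤ β / 4 * (d * s) then q s u else 0) := by
            rw [Finset.sum_powerset_apply_card (fun u : ℕ =>
              (if (u : ℝ) ≤ kc β * n ∧ (u : ℝ) ≤ β / 4 * (d * s) then q s u else 0)),
              Finset.card_univ]
        _ ≤ _ := by
            refine Finset.sum_le_sum fun u _ => ?_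
            rw [nsmul_eq_mul]
            split_ifs with h
            · exact term_le β p N s u (mS s) hβ hβ1 p.2.1 (by omega) hs1 hm0 hm1 hd0 h.1 h.2
            · rw [mul_zero]
              exact (Real.exp_pos _).le
    refine e1.trans ?_
    rw [Finset.sum_const, Finset.card_range, nsmul_eq_mul]
    push_cast
    refine mul_le_mul_of_nonneg_left ?_ (by positivity)
    have e2 : (1 / n ^ 4) ^ s = Real.exp (-(4 * Real.log n * s)) := by
      rw [show -(4 * Real.log n * (s : ℝ)) = (s : ℝ) * (-((4 : ℕ) * Real.log n)) by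
        push_cast; ring, Real.exp_nat_mul, Real.exp_neg, Real.exp_nat_mul, Real.exp_log hn0,
        one_div]
    rw [e2]
    apply Real.exp_le_exp.2
    have e3 : 2 * Real.log n * s ≤ β * d * s := mul_le_mul_of_nonneg_right hlog hs0.le
    linarith
  refine (Finset.sum_le_sum hS).trans ?_
  rw [← ENNReal.ofReal_sum_of_nonneg (fun S _ => by positivity)]
  refine ENNReal.ofReal_le_ofReal ?_
  rw [← Finset.mul_sum]
  have e4 : ∑ S ∈ QS, (1 / n ^ 4) ^ S.card = (1 / n ^ 4 + 1) ^ N - 1 := by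
    have h2 := Pool.Agent.Y936.EX.sum_pow_powerset (Finset.univ : Finset V) (1 / n ^ 4)
    have h3 : (Finset.univ : Finset V).powerset = insert ∅ QS := by
      ext S
      simp only [Finset.mem_powerset, Finset.mem_insert, hQS, Finset.mem_filter,
        Finset.mem_univ, true_and, Finset.subset_univ, true_iff]
      exact S.eq_empty_or_nonempty
    rw [h3, Finset.sum_insert (by simp [hQS]), Finset.card_univ] at h2
    simp only [Finset.card_empty, pow_zero] at h2
    linarith
  rw [e4]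
  have e5 : (1 / n ^ 4 + 1) ^ N ≤ Real.exp (1 / n ^ 3) := by
    calc (1 / n ^ 4 + 1) ^ N ≤ Real.exp (1 / n ^ 4) ^ N :=
          pow_le_pow_left₀ (by positivity) (Real.add_one_le_exp _) _
      _ = Real.exp (N * (1 / n ^ 4)) := by rw [Real.exp_nat_mul]
      _ = Real.exp (1 / n ^ 3) := by
          congr 1
          rw [← hndef]
          field_simp
  have e6 : 1 / n ^ 3 ≤ 1 := by
    rw [div_le_one (by positivity)]
    calc (1 : ℝ) = 1 ^ 3 := by norm_num
      _ ≤ n ^ 3 := pow_le_pow_left₀ (by norm_num) (by linarith) 3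
  have e7 : Real.exp (1 / n ^ 3) ≤ 1 + 2 * (1 / n ^ 3) := by
    have h0 : 0 ≤ 1 / n ^ 3 := by positivity
    have := Real.abs_exp_sub_one_le (x := 1 / n ^ 3) (by rw [abs_of_nonneg h0]; exact e6)
    rw [abs_of_nonneg h0] at this
    have h6 := le_abs_self (Real.exp (1 / n ^ 3) - 1)
    linarith
  have e8 : (n + 1) * ((1 / n ^ 4 + 1) ^ N - 1) ≤ (n + 1) * (2 * (1 / n ^ 3)) :=
    mul_le_mul_of_nonneg_left (by linarith) (by positivity)
  refine e8.trans ?_
  rw [mul_one_div, mul_div_assoc', div_le_div_iff₀ (by positivity) hn0]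
  have e9 : 2 * (n + 1) ≤ n * n := by nlinarith
  calc (n + 1) * 2 * n = (2 * (n + 1)) * n := by ring
    _ ≤ (n * n) * n := mul_le_mul_of_nonneg_right e9 hn0.le
    _ = 1 * n ^ 3 := by ring

end Pool.Agent.H8.MY
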