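import Pool.Agent.H8.MY.Guard

/-! Irregular expanders: guards and one team of cops. -/

set_option autoImplicit false

open scoped Classical

open N6ef48c04
open Pool.Agent.N330.VT
open Pool.Agent.N330.RB
open Pool.Agent.Y649.EX

namespace Pool.Agent.H8.MY

theorem hh_irr (V : Type) [Fintype V] (G : SimpleGraph V) (hG : G.Connected) (C P : Finset V)
    (c : ℝ) (t L : ℕ) (hc : 0 < c) (hn : 2 ≤ Fintype.card V)
    (hP : (P.card : ℝ) ≤ √(Fintype.card V : ℝ))
    (hball : ∀ v, v ∉ C ∪ nb G P →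
      ((ob G (C ∪ nb G P) t {v}).card : ℝ) ≤ √(Fintype.card V : ℝ))
    (hex : ∀ v, v ∉ C ∪ nb G P → ∀ S ⊆ ob G (C ∪ nb G P) t {v},
      c * min (√(Fintype.card V : ℝ) * Real.log (Fintype.card V) * S.card) (Fintype.card V) ≤
        ((nb G)^[t + 1] S).card)
    (hL : ∀ a v, a ∉ C → Con G C a v → v ∉ C → G.dist a v ≤ L) :
    ∃ k : ℕ, (k : ℝ) ≤ (16 / c + 2) * √(Fintype.card V : ℝ) ∧
      ∀ a v, a ∉ C → Con G C a v → v ∉ C →
        Hunt G C (L + 2 * t + 3) (fun _ : Fin k => a) v := by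
  set n : ℝ := (Fintype.card V : ℝ) with hndef
  have hn2 : (2 : ℝ) ≤ n := by rw [hndef]; exact_mod_cast hn
  have hlog : 0 < Real.log n := Real.log_pos (by linarith)
  have hs1 : 1 ≤ √n := Real.one_le_sqrt.2 (by linarith)
  obtain ⟨k1, hk1, hk1'⟩ : ∃ k : ℕ, 16 / c * √n ≤ k ∧ (k : ℝ) ≤ 16 / c * √n + 1 :=
    ⟨⌈16 / c * √n⌉₊, Nat.le_ceil _, (Nat.ceil_lt_add_one (by positivity)).le⟩
  set C' : Finset V := C ∪ nb G P with hC'
  set B : V → Finset V := fun v => if v ∈ C' then ∅ else ob G C' t {v} with hB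
  have hBv : ∀ v, v ∉ C' → B v = ob G C' t {v} := by
    intro v hv
    simp only [hB, hv, if_false]
  have hBb : ∀ v, ((B v).card : ℝ) ≤ √n := by
    intro v
    by_cases hv : v ∈ C'
    · simp only [hB, hv, if_true, Finset.card_empty, Nat.cast_zero]
      exact Real.sqrt_nonneg _
    · rw [hBv v hv]
      exact hball v hv
  obtain ⟨f1, hf1⟩ := team V G B c t k1 hc hn hBb
    (fun v S hS => by
      by_cases hv : v ∈ C'
      · have hS0 : S = ∅ := by
          simp only [hB, hv, if_true] at hS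
          exact Finset.subset_empty.1 hS
        rw [hS0, Finset.card_empty, Nat.cast_zero, mul_zero, min_eq_left (by linarith), mul_zero]
        exact Nat.cast_nonneg _
      · rw [hBv v hv] at hS
        exact hex v hv S hS) hk1
  refine ⟨P.card + k1, ?_, fun a v0 ha hav0 hv0 => ?_⟩
  · push_cast
    have : (16 / c + 2) * √n = 16 / c * √n + √n + √n := by ring
    rw [this]
    linarith
  -- the places of the cops
  set M : ℕ := L + t + 1 with hM
  set tg : ∀ k : ℕ, (Fin k → V) → Fin k → V :=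
    fun k f i => if G.dist a (f i) ≤ M then f i else a with htg
  have htg1 : ∀ (k : ℕ) (f : Fin k → V) (i : Fin k), G.dist a (tg k f i) ≤ M := by
    intro k f i
    by_cases h : G.dist a (f i) ≤ M
    · simp only [htg, h, if_true]
    · simp only [htg, h, if_false, SimpleGraph.dist_self]
      exact Nat.zero_le _
  have htg2 : ∀ (k : ℕ) (f : Fin k → V) (l : ℕ) (u : V), l ≤ t + 1 → Con G C a u → u ∉ C →
      ∀ i, f i ∈ (nb G)^[l] {u} → tg k f i ∈ (nb G)^[l] {u} := by
    intro k f l u hl hau hu i hi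
    have h1 := dist_of_mem_iter G hG l u (f i) hi
    have h2 := hL a u ha hau hu
    have h3 := hG.dist_triangle (u := a) (v := u) (w := f i)
    have h4 : G.dist a (f i) ≤ M := by omega
    simp only [htg, h4, if_true]
    exact hi
  set gd : Fin P.card → V := fun i => ((P.equivFin.symm i : P) : V) with hgd
  have hgd2 : ∀ s ∈ P, ∃ i, gd i = s := fun s hs => ⟨P.equivFin ⟨s, hs⟩, by simp [hgd]⟩
  have hgd3 : ∀ s ∈ P, ∀ r, Con G C a r → r ∉ C → Step G s r →
      ∃ i, tg P.card gd i = s := by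
    intro s hs r har hr hsr
    obtain ⟨i, hi⟩ := hgd2 s hs
    refine ⟨i, ?_⟩
    have e1 := hL a r ha har hr
    have e2 := dist_step G hsr
    have e3 := hG.dist_triangle (u := a) (v := r) (w := s)
    rw [SimpleGraph.dist_comm] at e2
    have h4 : G.dist a (gd i) ≤ M := by
      rw [hi]
      omega
    simp only [htg, h4, if_true]
    exact hi
  have key : ∀ v, Con G C a v → v ∉ C →
      Hunt G C (t + 1 + 1) (Fin.append (tg P.card gd) (tg k1 f1)) v := by
    intro v hav hv
    refine hunt_guard G C P a (tg P.card gd) hgd3 (t + 1) (tg k1 f1) v hav hv fun hvP => ?_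
    have hvC' : v ∉ C' := by
      intro h
      rcases Finset.mem_union.1 h with h | h
      · exact hv h
      · exact hvP h
    obtain ⟨F, -, hFc, g1, hg1, hi1⟩ := hall_def (B v)
      (fun u => Finset.univ.filter fun i => f1 i ∈ (nb G)^[t + 1] {u}) 0 (by
        intro S hS
        rw [← filter_biUnion, Nat.add_zero]
        exact hf1 v S hS)
    have hF : F = ∅ := Finset.card_eq_zero.1 (Nat.le_zero.1 hFc)
    rw [hF, Finset.sdiff_empty] at hg1 hi1
    have hBcon : ∀ u ∈ B v, u ∉ C ∧ Con G C a u := by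
      intro u hu
      rw [hBv v hvC'] at hu
      obtain ⟨h1, h2⟩ := mem_ob G C' t v u hvC' hu
      have h3 : Con G C v u := by
        clear hu h1
        induction h2 with
        | refl => exact Relation.ReflTransGen.refl
        | tail _ hbc ih =>
          exact Relation.ReflTransGen.tail ih
            ⟨hbc.1, fun h => hbc.2 (Finset.mem_union_left _ h)⟩
      exact ⟨fun h => h1 (Finset.mem_union_left _ h), hav.trans h3⟩
    obtain ⟨γ1, w1, s1, e1⟩ := team_walks G k1 (t + 1) (tg k1 f1) _ g1 (by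
      intro u hu
      obtain ⟨x, hx, hgx⟩ := hg1 u hu
      obtain ⟨h1, h2⟩ := hBcon u hu
      refine ⟨x, Finset.mem_filter.2 ⟨Finset.mem_univ _, ?_⟩, hgx⟩
      exact htg2 k1 f1 (t + 1) u (by omega) h2 h1 x (Finset.mem_filter.1 hx).2) hi1
    have hpos : tg k1 f1 = fun i => γ1 i 0 := by
      funext i
      rw [s1]
    rw [hpos]
    refine hunt_of_walks G C' (t + 1) γ1 v hvC' w1 ?_
    intro ρ hρ hρC h0
    have ht : ρ t ∈ B v := by
      rw [hBv v hvC', ← h0]
      exact walk_ob G C' ρ hρ hρC t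
    obtain ⟨i, hi⟩ := e1 _ ht
    exact ⟨i, t, by omega, hi⟩
  have h1 := hunt_go G hG C a (t + 1 + 1) (Fin.append (tg P.card gd) (tg k1 f1)) key M
    (fun _ => a) v0 hav0 hv0
    (by
      intro i
      refine Fin.addCases (fun j => ?_) (fun j => ?_) i
      · rw [Fin.append_left]; exact htg1 _ gd j
      · rw [Fin.append_right]; exact htg1 _ f1 j)
  have h2 : M + (t + 1 + 1) = L + 2 * t + 3 := by omega
  rw [h2] at h1
  exact h1

theorem irr_bound (V : Type) [Fintype V] (G : SimpleGraph V) (hG : G.Connected)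
    (C P : Finset V)
    (c : ℝ) (t L : ℕ) (hc : 0 < c) (hn : 2 ≤ Fintype.card V)
    (hP : (P.card : ℝ) ≤ √(Fintype.card V : ℝ))
    (hball : ∀ v, v ∉ C ∪ nb G P →
      ((ob G (C ∪ nb G P) t {v}).card : ℝ) ≤ √(Fintype.card V : ℝ))
    (hex : ∀ v, v ∉ C ∪ nb G P → ∀ S ⊆ ob G (C ∪ nb G P) t {v},
      c * min (√(Fintype.card V : ℝ) * Real.log (Fintype.card V) * S.card) (Fintype.card V) ≤
        ((nb G)^[t + 1] S).card)
    (hL : ∀ a v, a ∉ C → Con G C a v → v ∉ C → G.dist a v ≤ L) :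
    (copNumber G : ℝ) ≤ 195 * √((L + 2 * t + 4) * C.card) * (Real.log (Fintype.card V) + 1) +
      (16 / c + 2) * √(Fintype.card V : ℝ) := by
  obtain ⟨k, hk, HH⟩ := hh_irr V G hG C P c t L hc hn hP hball hex hL
  have h1 := bound_two hG HH
  have h2 : (((L + 2 * t + 3 : ℕ) : ℝ) + 1) = L + 2 * t + 4 := by
    push_cast
    ring
  rw [h2] at h1
  linarith

end Pool.Agent.H8.MY
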