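import Pool.Agent.H8.MY.Core

/-! Irregular expanders with exceptional vertices. -/

set_option autoImplicit false

open scoped Classical

open N6ef48c04
open Pool.Agent.N330.VT
open Pool.Agent.N330.RB
open Pool.Agent.Y649.EX

namespace Pool.Agent.H8.MY

/-- the robber's places, if the closed neighbourhoods outside `C` have at most `D` vertices -/
theorem irr_rb (t : ℕ) (c : ℝ) (hc : 0 < c) (hc1 : c ≤ 1) :
    ∃ K : ℝ, 0 ≤ K ∧ ∀ (V : Type) [Fintype V] (G : SimpleGraph V) (C P : Finset V) (d D : ℝ),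
      G.Connected → 1 ≤ d →
      √(Fintype.card V : ℝ) * Real.log (Fintype.card V) ≤ d ^ (t + 1) →
      (P.card : ℝ) ≤ √(Fintype.card V : ℝ) → 0 ≤ D → D ^ t ≤ √(Fintype.card V : ℝ) →
      (∀ v, v ∉ C ∪ nb G P → ((nb G {v} \ (C ∪ nb G P)).card : ℝ) ≤ D) →
      (∀ S : Finset V, (∀ v ∈ S, v ∉ C) →
        c * min (d * S.card) (Fintype.card V) ≤ (nb G S \ C).card) →
      (copNumber G : ℝ) ≤ K * (√(Fintype.card V : ℝ) +
        √(C.card : ℝ) * (Real.log (Fintype.card V) + 1)) := by
  set j0 : ℕ := 2 * t + 2 with hj0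
  set L0 : ℕ := ⌊(2 * j0 + 1) / c ^ j0⌋₊ with hL0
  set c0 : ℝ := c ^ (t + 1) with hc0
  have hc0pos : 0 < c0 := pow_pos hc _
  set K1 : ℝ := 16 / c0 + 2 with hK1d
  set K4 : ℝ := 195 * √((L0 : ℝ) + 2 * t + 4) with hK4d
  have hK1 : 0 ≤ K1 := by positivity
  have hK4 : 0 ≤ K4 := by positivity
  have hK3 : (0 : ℝ) ≤ √(3 : ℝ) := Real.sqrt_nonneg _
  refine ⟨K1 + √3 + K4, by positivity, ?_⟩
  intro V _ G C P d D hG hd1 hd hP hD0 hD hdeg hex
  have hne : Nonempty V := hG.nonempty
  have hs0 : 0 ≤ √(Fintype.card V : ℝ) := Real.sqrt_nonneg _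
  have hΛ : 0 ≤ Real.log (Fintype.card V : ℝ) + 1 := by
    have : 0 ≤ Real.log (Fintype.card V : ℝ) :=
      Real.log_nonneg (by exact_mod_cast Fintype.card_pos)
    linarith
  have hCΛ : 0 ≤ √(C.card : ℝ) * (Real.log (Fintype.card V) + 1) :=
    mul_nonneg (Real.sqrt_nonneg _) hΛ
  have fin : ∀ A B : ℝ, A ≤ K1 + √3 + K4 → B ≤ K1 + √3 + K4 →
      (copNumber G : ℝ) ≤ A * √(Fintype.card V : ℝ) +
        B * (√(C.card : ℝ) * (Real.log (Fintype.card V) + 1)) →
      (copNumber G : ℝ) ≤ (K1 + √3 + K4) * (√(Fintype.card V : ℝ) +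
        √(C.card : ℝ) * (Real.log (Fintype.card V) + 1)) := by
    intro A B hA hB h
    have e1 := mul_le_mul_of_nonneg_right hA hs0
    have e2 := mul_le_mul_of_nonneg_right hB hCΛ
    have e3 : (K1 + √3 + K4) * (√(Fintype.card V : ℝ) +
        √(C.card : ℝ) * (Real.log (Fintype.card V) + 1)) =
        (K1 + √3 + K4) * √(Fintype.card V : ℝ) + (K1 + √3 + K4) *
        (√(C.card : ℝ) * (Real.log (Fintype.card V) + 1)) := by ring
    rw [e3]
    linarith
  rcases lt_or_ge (Fintype.card V) 3 with hsmall | hbig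
  · refine fin (√3) 0 (by linarith) (by positivity) ?_
    rw [zero_mul, add_zero]
    exact cop_small V G _ (by exact_mod_cast hsmall.le)
  · have hn2 : 2 ≤ Fintype.card V := by omega
    set n : ℝ := (Fintype.card V : ℝ) with hndef
    have hn3 : (3 : ℝ) ≤ n := by rw [hndef]; exact_mod_cast hbig
    have hlog1 : 1 ≤ Real.log n := by
      rw [Real.le_log_iff_exp_le (by linarith)]
      have := Real.exp_one_lt_d9
      linarith
    have hiter : ∀ (j : ℕ) (S : Finset V), (∀ v ∈ S, v ∉ C) →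
        c ^ j * min (d ^ j * S.card) n ≤ (((nb G)^[j] S).card : ℝ) := by
      intro j S hS
      refine le_trans (iter_expand_ob G C c d hc hc1 hd1 hex j S hS) ?_
      exact_mod_cast Finset.card_le_card (ob_subset G C j S)
    have hsing : ∀ v, v ∉ C → ∀ s ∈ ({v} : Finset V), s ∉ C := by
      intro v hv s hs
      rw [Finset.mem_singleton.1 hs]
      exact hv
    -- the components outside `C` have bounded diameter
    have hdist : ∀ a v, a ∉ C → Con G C a v → v ∉ C → G.dist a v ≤ L0 := by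
      intro a v ha hav _
      have hcj : 0 < c ^ j0 := pow_pos hc j0
      have h1 : ∀ v, v ∉ C → c ^ j0 * n ≤ (((nb G)^[j0] {v}).card : ℝ) := by
        intro v hv
        have e1 := hiter j0 {v} (hsing v hv)
        rw [Finset.card_singleton, Nat.cast_one, mul_one, min_eq_right] at e1
        · exact e1
        · have e2 : √n ≤ d ^ (t + 1) := by
            refine le_trans ?_ hd
            nlinarith
          calc n = √n * √n := (Real.mul_self_sqrt (by linarith)).symm
            _ ≤ d ^ (t + 1) * d ^ (t + 1) := mul_le_mul e2 e2 hs0 (by positivity)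
            _ = d ^ j0 := by rw [← pow_add, hj0]; congr 1; omega
      have h2 := dist_con G hG C (c ^ j0) hcj j0 h1 a v ha hav
      apply Nat.le_floor
      rw [le_div_iff₀ hcj]
      exact h2
    have hb := irr_bound V G hG C P c0 t L0 hc0pos hn2 hP
      (fun v hv => (ob_card_le G (C ∪ nb G P) D hD0 hdeg v hv t).trans hD)
      (fun v hv S hS => by
        have hSC : ∀ u ∈ S, u ∉ C := by
          intro u hu h
          exact ob_notMem G (C ∪ nb G P) t {v} (fun s hs => by
            rw [Finset.mem_singleton.1 hs]; exact hv) u (hS hu) (Finset.mem_union_left _ h)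
        refine le_trans ?_ (hiter (t + 1) S hSC)
        refine mul_le_mul_of_nonneg_left ?_ hc0pos.le
        refine min_le_min ?_ le_rfl
        exact mul_le_mul_of_nonneg_right hd (Nat.cast_nonneg _)) hdist
    refine fin K1 K4 (by linarith) (by linarith) ?_
    have e1 : √(((L0 : ℝ) + 2 * t + 4) * (C.card : ℝ)) =
        √((L0 : ℝ) + 2 * t + 4) * √(C.card : ℝ) := Real.sqrt_mul (by positivity) _
    rw [e1] at hb
    have e2 : K4 * (√(C.card : ℝ) * (Real.log n + 1)) =
        195 * (√((L0 : ℝ) + 2 * t + 4) * √(C.card : ℝ)) * (Real.log n + 1) := by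
      rw [hK4d]
      ring
    rw [e2]
    linarith

theorem irr_mod (t : ℕ) (c : ℝ) (hc : 0 < c) (hc1 : c ≤ 1) :
    ∃ K : ℝ, 0 ≤ K ∧ ∀ (V : Type) [Fintype V] (G : SimpleGraph V) (C P : Finset V) (d D : ℝ),
      G.Connected → 1 ≤ d →
      √(Fintype.card V : ℝ) * Real.log (Fintype.card V) ≤ d ^ (t + 1) →
      (P.card : ℝ) ≤ √(Fintype.card V : ℝ) → 0 ≤ D → D ^ t ≤ √(Fintype.card V : ℝ) →
      (∀ v, v ∉ C ∪ nb G P → ((nb G {v} \ (C ∪ nb G P)).card : ℝ) ≤ D) →
      (∀ S : Finset V, (∀ v ∈ S, v ∉ C) →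
        c * min (d * S.card) (Fintype.card V) ≤ (nb G S ∪ C).card) →
      (8 * (C.card : ℝ) ≤ c * Fintype.card V → (copNumber G : ℝ) ≤ K * (√(Fintype.card V : ℝ) +
        √(C.card : ℝ) * (Real.log (Fintype.card V) + 1))) ∧
      (C.card * (Real.log (Fintype.card V) + 1) ^ 2 ≤ Fintype.card V →
        (copNumber G : ℝ) ≤ K * √(Fintype.card V : ℝ)) := by
  obtain ⟨K, hK0, hK⟩ := irr_rb t (c / 4) (by positivity) (by linarith)
  -- small graphs
  set N1 : ℝ := max 3 (((4 / c) ^ (t + 1)) ^ 2) with hN1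
  set N2 : ℝ := Real.exp (√(8 / c)) with hN2
  have hN10 : 0 ≤ √N1 := Real.sqrt_nonneg _
  have hN20 : 0 ≤ √N2 := Real.sqrt_nonneg _
  refine ⟨2 * √N1 + √N2 + 4 * K, by positivity, fun V _ G C P d D hG hd1 hd hP hD0 hD hdeg hex => ?_⟩
  have hne : Nonempty V := hG.nonempty
  have hn1 : (1 : ℝ) ≤ Fintype.card V := by exact_mod_cast Fintype.card_pos
  have hl0 := Real.log_nonneg hn1
  have hΛ : 0 ≤ Real.log (Fintype.card V : ℝ) + 1 := by linarith
  have hs0 : 0 ≤ √(Fintype.card V : ℝ) := Real.sqrt_nonneg _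
  have hCΛ : 0 ≤ √(C.card : ℝ) * (Real.log (Fintype.card V) + 1) :=
    mul_nonneg (Real.sqrt_nonneg _) hΛ
  have main : 8 * (C.card : ℝ) ≤ c * Fintype.card V →
      (copNumber G : ℝ) ≤ (√N1 + 2 * K) * (√(Fintype.card V : ℝ) +
        √(C.card : ℝ) * (Real.log (Fintype.card V) + 1)) := by
    intro hC
    rcases lt_or_ge (c * d) 4 with h | h
    · have h1 : (Fintype.card V : ℝ) ≤ N1 := by
        rcases lt_or_ge (Fintype.card V) 3 with h3 | h3
        · refine le_trans ?_ (le_max_left _ _)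
          exact_mod_cast h3.le
        · refine le_trans ?_ (le_max_right _ _)
          have hn3 : (3 : ℝ) ≤ Fintype.card V := by exact_mod_cast h3
          have hlog1 : 1 ≤ Real.log (Fintype.card V : ℝ) := by
            rw [Real.le_log_iff_exp_le (by linarith)]
            have := Real.exp_one_lt_d9
            linarith
          have e1 : d ≤ 4 / c := by
            rw [le_div_iff₀ hc]
            nlinarith
          have e2 : √(Fintype.card V : ℝ) ≤ (4 / c) ^ (t + 1) := by
            calc √(Fintype.card V : ℝ) ≤ √(Fintype.card V : ℝ) * Real.log (Fintype.card V) := by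
                  nlinarith
              _ ≤ d ^ (t + 1) := hd
              _ ≤ (4 / c) ^ (t + 1) := pow_le_pow_left₀ (by linarith) e1 _
          calc (Fintype.card V : ℝ) = √(Fintype.card V : ℝ) ^ 2 :=
                (Real.sq_sqrt (by linarith)).symm
            _ ≤ ((4 / c) ^ (t + 1)) ^ 2 := pow_le_pow_left₀ hs0 e2 2
      have h2 := cop_small V G N1 h1
      have h3 : 0 ≤ 2 * K * (√(Fintype.card V : ℝ) +
          √(C.card : ℝ) * (Real.log (Fintype.card V) + 1)) := by positivity
      have h4 : 0 ≤ √N1 * (√(C.card : ℝ) * (Real.log (Fintype.card V) + 1)) :=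
        mul_nonneg hN10 hCΛ
      calc (copNumber G : ℝ) ≤ √N1 * √(Fintype.card V : ℝ) := h2
        _ ≤ √N1 * √(Fintype.card V : ℝ) + √N1 * (√(C.card : ℝ) *
            (Real.log (Fintype.card V) + 1)) +
            2 * K * (√(Fintype.card V : ℝ) +
              √(C.card : ℝ) * (Real.log (Fintype.card V) + 1)) := by linarith
        _ = _ := by ring
    · obtain ⟨Z, hZ, hZe⟩ := closure_set G C c d hc h hC hex
      have h1 := hK V G (C ∪ Z) P d D hG hd1 hd hP hD0 hD (by
        intro v hv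
        have e1 : v ∉ C ∪ nb G P := by
          intro h
          apply hv
          rcases Finset.mem_union.1 h with h | h
          · exact Finset.mem_union_left _ (Finset.mem_union_left _ h)
          · exact Finset.mem_union_right _ h
        have e2 : nb G {v} \ ((C ∪ Z) ∪ nb G P) ⊆ nb G {v} \ (C ∪ nb G P) := by
          refine Finset.sdiff_subset_sdiff (Finset.Subset.refl _) ?_
          exact Finset.union_subset_union Finset.subset_union_left (Finset.Subset.refl _)
        have e3 : ((nb G {v} \ ((C ∪ Z) ∪ nb G P)).card : ℝ) ≤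
            (nb G {v} \ (C ∪ nb G P)).card := by
          exact_mod_cast Finset.card_le_card e2
        exact e3.trans (hdeg v e1)) hZe
      have h2 : (((C ∪ Z).card : ℕ) : ℝ) ≤ 2 ^ 2 * C.card := by
        have e1 := Finset.card_union_le C Z
        have e2 : (C ∪ Z).card ≤ 4 * C.card := by omega
        have e3 : (((C ∪ Z).card : ℕ) : ℝ) ≤ 4 * C.card := by exact_mod_cast e2
        norm_num
        exact e3
      have h3 : √(((C ∪ Z).card : ℕ) : ℝ) ≤ 2 * √(C.card : ℝ) := by
        refine (Real.sqrt_le_sqrt h2).trans (le_of_eq ?_)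
        rw [Real.sqrt_mul (by positivity), Real.sqrt_sq (by norm_num)]
      have h4 : √(((C ∪ Z).card : ℕ) : ℝ) * (Real.log (Fintype.card V) + 1) ≤
          2 * √(C.card : ℝ) * (Real.log (Fintype.card V) + 1) :=
        mul_le_mul_of_nonneg_right h3 hΛ
      have h5 : 0 ≤ √N1 * (√(Fintype.card V : ℝ) +
          √(C.card : ℝ) * (Real.log (Fintype.card V) + 1)) := by positivity
      have h6 : 0 ≤ K * √(Fintype.card V : ℝ) := mul_nonneg hK0 hs0
      calc (copNumber G : ℝ) ≤ K * (√(Fintype.card V : ℝ) +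
            √(((C ∪ Z).card : ℕ) : ℝ) * (Real.log (Fintype.card V) + 1)) := h1
        _ ≤ K * (√(Fintype.card V : ℝ) +
            2 * √(C.card : ℝ) * (Real.log (Fintype.card V) + 1)) :=
            mul_le_mul_of_nonneg_left (by linarith) hK0
        _ ≤ √N1 * (√(Fintype.card V : ℝ) +
          √(C.card : ℝ) * (Real.log (Fintype.card V) + 1)) + K * √(Fintype.card V : ℝ) +
          K * (√(Fintype.card V : ℝ) +
            2 * √(C.card : ℝ) * (Real.log (Fintype.card V) + 1)) := by linarith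
        _ = _ := by ring
  refine ⟨fun hC => ?_, fun hC => ?_⟩
  · refine (main hC).trans (mul_le_mul_of_nonneg_right (by linarith) (by positivity))
  · rcases le_total (Fintype.card V : ℝ) N2 with h | h
    · have h1 := cop_small V G N2 h
      exact h1.trans (mul_le_mul_of_nonneg_right (by linarith) hs0)
    · have h1 : √(8 / c) ≤ Real.log (Fintype.card V : ℝ) := by
        rw [Real.le_log_iff_exp_le (by linarith)]
        exact h
      have h2 : 8 / c ≤ (Real.log (Fintype.card V : ℝ) + 1) ^ 2 := by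
        have e1 : (0 : ℝ) ≤ 8 / c := by positivity
        calc 8 / c = √(8 / c) ^ 2 := (Real.sq_sqrt e1).symm
          _ ≤ (Real.log (Fintype.card V : ℝ) + 1) ^ 2 :=
            pow_le_pow_left₀ (Real.sqrt_nonneg _) (by linarith) 2
      have h3 : 8 * (C.card : ℝ) ≤ c * Fintype.card V := by
        have e1 : (C.card : ℝ) * (8 / c) ≤ Fintype.card V :=
          (mul_le_mul_of_nonneg_left h2 (Nat.cast_nonneg _)).trans hC
        have e2 : c * (C.card * (8 / c)) ≤ c * Fintype.card V :=
          mul_le_mul_of_nonneg_left e1 hc.le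
        have e3 : c * (C.card * (8 / c)) = 8 * (C.card : ℝ) := by field_simp
        rw [e3] at e2
        exact e2
      have h5 := sqrt_mul_le_sqrt (C.card : ℝ) _ _ (Nat.cast_nonneg _) hC
      calc (copNumber G : ℝ) ≤ (√N1 + 2 * K) * (√(Fintype.card V : ℝ) +
            √(C.card : ℝ) * (Real.log (Fintype.card V) + 1)) := main h3
        _ ≤ (√N1 + 2 * K) * (√(Fintype.card V : ℝ) + √(Fintype.card V : ℝ)) :=
            mul_le_mul_of_nonneg_left (by linarith) (by positivity)
        _ = (2 * √N1 + 4 * K) * √(Fintype.card V : ℝ) := by ring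
        _ ≤ _ := mul_le_mul_of_nonneg_right (by linarith) hs0

/-- The degree condition: from each vertex `v` outside `C` and outside the neighbourhood of some
set `P` of at most `√n` vertices one has at most `D` moves which stay outside these sets, where
`D ^ t ≤ √n`. There is no condition if `t = 1`. -/
def DegreeCond {V : Type} [Fintype V] (G : SimpleGraph V) (C : Finset V) (t : ℕ) : Prop :=
  t = 1 ∨ ∃ (P : Finset V) (D : ℝ), (P.card : ℝ) ≤ √(Fintype.card V : ℝ) ∧ 0 ≤ D ∧
    D ^ t ≤ √(Fintype.card V : ℝ) ∧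
    ∀ v, v ∉ C ∪ nb G P → ((nb G {v} \ (C ∪ nb G P)).card : ℝ) ≤ D

theorem exists_guards {V : Type} [Fintype V] [Nonempty V] (G : SimpleGraph V) (C : Finset V) :
    ∃ P : Finset V, (P.card : ℝ) ≤ √(Fintype.card V : ℝ) ∧
      ∀ v, ((nb G {v} \ (C ∪ nb G P)).card : ℝ) ≤ √(Fintype.card V : ℝ) := by
  set r : ℝ := √(Fintype.card V : ℝ) with hr
  have hn1 : (1 : ℝ) ≤ Fintype.card V := by exact_mod_cast Fintype.card_pos
  have hr2 : r * r = Fintype.card V := Real.mul_self_sqrt (by positivity)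
  have hr0 : 0 < r := Real.sqrt_pos.2 (by linarith)
  obtain ⟨P, hP1, hP2⟩ := guards G Finset.univ (⌊r⌋₊ + 1) (by omega)
  have hfl : (⌊r⌋₊ : ℝ) ≤ r := Nat.floor_le hr0.le
  have hfl2 : r < ⌊r⌋₊ + 1 := Nat.lt_floor_add_one r
  refine ⟨P, ?_, fun v => ?_⟩
  · have h1 : (nb G P ∩ Finset.univ).card ≤ Fintype.card V := Finset.card_le_univ _
    have h2 : (((⌊r⌋₊ + 1) * P.card : ℕ) : ℝ) ≤ Fintype.card V := by exact_mod_cast hP1.trans h1
    push_cast at h2
    have h3 : (0 : ℝ) ≤ P.card := Nat.cast_nonneg _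
    have h4 : r * P.card ≤ r * r := by
      rw [hr2]
      exact (mul_le_mul_of_nonneg_right hfl2.le h3).trans h2
    exact le_of_mul_le_mul_left h4 hr0
  · have h1 : nb G {v} \ (C ∪ nb G P) ⊆ (nb G {v} ∩ Finset.univ) \ nb G P := by
      intro z hz
      rw [Finset.mem_sdiff] at hz
      rw [Finset.mem_sdiff, Finset.inter_univ]
      exact ⟨hz.1, fun h => hz.2 (Finset.mem_union_right _ h)⟩
    have h2 : (nb G {v} \ (C ∪ nb G P)).card ≤ ⌊r⌋₊ :=
      Nat.lt_succ_iff.1 (lt_of_le_of_lt (Finset.card_le_card h1) (hP2 v))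
    have h3 : ((nb G {v} \ (C ∪ nb G P)).card : ℝ) ≤ ⌊r⌋₊ := by exact_mod_cast h2
    exact h3.trans hfl

theorem irr_mey (t : ℕ) (c : ℝ) (hc : 0 < c) (hc1 : c ≤ 1) :
    ∃ K : ℝ, 0 ≤ K ∧ ∀ (V : Type) [Fintype V] (G : SimpleGraph V) (C : Finset V) (d : ℝ),
      G.Connected → 1 ≤ d →
      √(Fintype.card V : ℝ) * Real.log (Fintype.card V) ≤ d ^ (t + 1) → DegreeCond G C t →
      (∀ S : Finset V, (∀ v ∈ S, v ∉ C) →
        c * min (d * S.card) (Fintype.card V) ≤ (nb G S ∪ C).card) →
      (8 * (C.card : ℝ) ≤ c * Fintype.card V → (copNumber G : ℝ) ≤ K * (√(Fintype.card V : ℝ) +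
        √(C.card : ℝ) * (Real.log (Fintype.card V) + 1))) ∧
      (C.card * (Real.log (Fintype.card V) + 1) ^ 2 ≤ Fintype.card V →
        (copNumber G : ℝ) ≤ K * √(Fintype.card V : ℝ)) := by
  obtain ⟨K, hK0, hK⟩ := irr_mod t c hc hc1
  refine ⟨K, hK0, fun V _ G C d hG hd1 hd hD hex => ?_⟩
  rcases hD with ht | ⟨P, D, h1, h2, h3, h4⟩
  · have hne : Nonempty V := hG.nonempty
    obtain ⟨P, hP, hP2⟩ := exists_guards G C
    exact hK V G C P d _ hG hd1 hd hP (Real.sqrt_nonneg _) (by rw [ht, pow_one])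
      (fun v _ => hP2 v) hex
  · exact hK V G C P d D hG hd1 hd h1 h2 h3 h4 hex

/-- What is allowed for the degrees of `H` (compared with the degree `d` of the given graph):
either `d ^ (t + 1) ≥ √n log n` and the condition `DegreeCond`, or there are at most `d / β`
vertices outside `C` in the closed neighbourhood of each vertex outside `C`. -/
def Allowed {V : Type} [Fintype V] (H : SimpleGraph V) (C : Finset V) (d β : ℝ) (t : ℕ) : Prop :=
  (√(Fintype.card V : ℝ) * Real.log (Fintype.card V) ≤ d ^ (t + 1) ∧ DegreeCond H C t) ∨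
    ∀ v, v ∉ C → ((nb H {v} \ C).card : ℝ) ≤ d / β

/-- many edges into small sets are excluded: expansion -/
theorem expand_of_sparse (t : ℕ) (ε β c1 c2 : ℝ) (hε : 0 < ε) (hβ : 0 < β) (hc1 : 0 < c1)
    (hc2 : 0 < c2) (hc11 : c1 ≤ 1) :
    ∃ K : ℝ, 0 ≤ K ∧ ∀ (V : Type) [Fintype V] (G H : SimpleGraph V) (C : Finset V) (d : ℝ),
      H.Connected → (Fintype.card V : ℝ) ^ ε ≤ d → Allowed H C d β t →
      (∀ S U : Finset V, S.Nonempty → (U.card : ℝ) ≤ c1 * Fintype.card V →
        (U.card : ℝ) ≤ c2 * (d * S.card) →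
        (((S ×ˢ U).filter fun x => G.Adj x.1 x.2).card : ℝ) < β * d * S.card) →
      (∀ v, v ∉ C → β * d ≤
        ((Finset.univ.filter fun w => H.Adj v w ∧ G.Adj v w).card : ℝ)) →
      C.card * (Real.log (Fintype.card V) + 1) ^ 2 ≤ Fintype.card V →
        (copNumber H : ℝ) ≤ K * √(Fintype.card V : ℝ) := by
  set c0 : ℝ := min (min c1 c2) β with hc0
  have hc00 : 0 < c0 := lt_min (lt_min hc1 hc2) hβ
  have hc01 : c0 ≤ c1 := (min_le_left _ _).trans (min_le_left _ _)
  have hc02 : c0 ≤ c2 := (min_le_left _ _).trans (min_le_right _ _)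
  have hc0β : c0 ≤ β := min_le_right _ _
  obtain ⟨K, hK0, hK⟩ := irr_mey t c0 hc00 (hc01.trans hc11)
  obtain ⟨K', hK0', hK'⟩ := expander_mey ε c0 hε hc00 (hc01.trans hc11)
  refine ⟨K + K', by linarith, fun V _ G H C d hH hd hD hsp hdeg hC => ?_⟩
  have hne : Nonempty V := hH.nonempty
  have hn1 : (1 : ℝ) ≤ Fintype.card V := by exact_mod_cast Fintype.card_pos
  have hd1 : 1 ≤ d := (Real.one_le_rpow hn1 hε.le).trans hd
  have hs0 : 0 ≤ √(Fintype.card V : ℝ) := Real.sqrt_nonneg _
  have hex : ∀ S : Finset V, (∀ v ∈ S, v ∉ C) →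
      c0 * min (d * S.card) (Fintype.card V) ≤ (nb H S ∪ C).card := by
    intro S hS
    rcases S.eq_empty_or_nonempty with rfl | hSne
    · rw [Finset.card_empty, Nat.cast_zero, mul_zero, min_eq_left (Nat.cast_nonneg _), mul_zero]
      exact Nat.cast_nonneg _
    · have hdS : 0 ≤ d * (S.card : ℝ) := mul_nonneg (by linarith) (Nat.cast_nonneg _)
      have hn0 : (0 : ℝ) ≤ Fintype.card V := Nat.cast_nonneg _
      have h0 : ((nb H S).card : ℝ) ≤ ((nb H S ∪ C).card : ℝ) := by
        exact_mod_cast Finset.card_le_card Finset.subset_union_left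
      refine le_trans ?_ h0
      by_contra hcon
      push Not at hcon
      have e0 : 0 ≤ min (d * (S.card : ℝ)) (Fintype.card V) := le_min hdS hn0
      have e1 : c0 * min (d * (S.card : ℝ)) (Fintype.card V) ≤ c1 * Fintype.card V :=
        mul_le_mul hc01 (min_le_right _ _) e0 hc1.le
      have e2 : c0 * min (d * (S.card : ℝ)) (Fintype.card V) ≤ c2 * (d * S.card) :=
        mul_le_mul hc02 (min_le_left _ _) e0 hc2.le
      have h1 := hsp S (nb H S) hSne (hcon.le.trans e1) (hcon.le.trans e2)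
      have h2 : (((S ×ˢ nb H S).filter fun x => G.Adj x.1 x.2).card : ℝ) =
          ∑ s ∈ S, (((nb H S).filter fun w => G.Adj s w).card : ℝ) := by
        have : ((S ×ˢ nb H S).filter fun x => G.Adj x.1 x.2).card =
            ∑ s ∈ S, ((nb H S).filter fun w => G.Adj s w).card := by
          rw [Finset.card_filter, Finset.sum_product]
          refine Finset.sum_congr rfl fun s _ => ?_
          rw [Finset.card_filter]
        rw [this]
        push_cast
        rfl
      have h3 : ∑ s ∈ S, β * d ≤ ∑ s ∈ S, (((nb H S).filter fun w => G.Adj s w).card : ℝ) := by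
        refine Finset.sum_le_sum fun s hs => ?_
        refine (hdeg s (hS s hs)).trans ?_
        have : (Finset.univ.filter fun w => H.Adj s w ∧ G.Adj s w) ⊆
            (nb H S).filter fun w => G.Adj s w := by
          intro w hw
          rw [Finset.mem_filter] at hw ⊢
          exact ⟨(mem_nb H S w).2 ⟨s, hs, Or.inr hw.2.1⟩, hw.2.2⟩
        exact_mod_cast Finset.card_le_card this
      rw [Finset.sum_const, nsmul_eq_mul] at h3
      rw [h2] at h1
      linarith [mul_comm (S.card : ℝ) (β * d)]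
  rcases hD with ⟨hD1, hD2⟩ | hD
  · refine ((hK V H C d hH hd1 hD1 hD2 hex).2 hC).trans ?_
    exact mul_le_mul_of_nonneg_right (by linarith) hs0
  · refine ((hK' V H C d hH hd ?_ hex).2 hC).trans ?_
    · intro v hv
      refine (hD v hv).trans ?_
      exact div_le_div_of_nonneg_left (by linarith) hc00 hc0β
    · exact mul_le_mul_of_nonneg_right (by linarith) hs0

end Pool.Agent.H8.MY
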