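import Pool.Graph.R_pool_sql_team_seeded_63374d34.N330.RB.Clo

/-! Guards and one team of cops: the combinatorial part. -/

set_option autoImplicit false

open scoped Classical

open N6ef48c04
open Pool.Agent.N330.VT
open Pool.Agent.N330.RB
open Pool.Agent.Y649.EX

namespace Pool.Agent.H8.MY

/-- Guards `gd` who stand at the vertices of `P` make the robber avoid the neighbourhood of `P`. -/
theorem hunt_guard {V : Type} [Fintype V] (G : SimpleGraph V) (C P : Finset V) (a : V)
    {k1 k2 : ℕ} (gd : Fin k1 → V)
    (hgd : ∀ s ∈ P, ∀ r, Con G C a r → r ∉ C → Step G s r → ∃ i, gd i = s) (T : ℕ) :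
    ∀ (c : Fin k2 → V) (r : V), Con G C a r → r ∉ C →
      (r ∉ nb G P → Hunt G (C ∪ nb G P) T c r) → Hunt G C (T + 1) (Fin.append gd c) r := by
  induction T with
  | zero =>
    intro c r har hr h
    by_cases hrP : r ∈ nb G P
    · obtain ⟨s, hs, hsr⟩ := (mem_nb G P r).1 hrP
      obtain ⟨i, hi⟩ := hgd s hs r har hr hsr
      apply hunt1 G C 0 _ (Fin.castAdd k2 i)
      rw [Fin.append_left, hi]
      exact hsr
    · obtain ⟨i, hi⟩ := h hrP
      exact Or.inl ⟨Fin.natAdd k1 i, by rw [Fin.append_right]; exact hi⟩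
  | succ T ih =>
    intro c r har hr h
    by_cases hrP : r ∈ nb G P
    · obtain ⟨s, hs, hsr⟩ := (mem_nb G P r).1 hrP
      obtain ⟨i, hi⟩ := hgd s hs r har hr hsr
      apply hunt1 G C (T + 1) _ (Fin.castAdd k2 i)
      rw [Fin.append_left, hi]
      exact hsr
    · rcases h hrP with ⟨i, hi⟩ | ⟨c', hc', h'⟩
      · exact Or.inl ⟨Fin.natAdd k1 i, by rw [Fin.append_right]; exact hi⟩
      · refine Or.inr ⟨Fin.append gd c', fun i => ?_, ?_⟩
        · refine Fin.addCases (fun j => ?_) (fun j => ?_) i
          · rw [Fin.append_left, Fin.append_left]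
            exact step_refl G _
          · rw [Fin.append_right, Fin.append_right]
            exact hc' j
        · rcases h' with ⟨i, hi⟩ | h'
          · exact Or.inl ⟨Fin.natAdd k1 i, by rw [Fin.append_right]; exact hi⟩
          · refine Or.inr fun r' hr' hr'C => ?_
            refine ih c' r' (con_step G C har hr' hr'C) hr'C fun hr'P => ?_
            refine h' r' hr' fun hcon => ?_
            rcases Finset.mem_union.1 hcon with hcon | hcon
            · exact hr'C hcon
            · exact hr'P hcon

/-- subsets of a set with at least one element -/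
theorem sum_ne {V : Type} (B : Finset V) (n r : ℝ) (hn : 2 ≤ n) (hrr : r * r = n) (hr0 : 0 ≤ r)
    (hB : (B.card : ℝ) ≤ r) :
    ∑ S ∈ B.powerset.filter (fun S => S ≠ ∅),
      (2 : ℝ) ^ S.card * Real.exp (-(8 * Real.log n * S.card)) ≤ 1 / (4 * n) := by
  have hn0 : 0 < n := by linarith
  set x : ℝ := 2 / n ^ 8 with hx
  have hx0 : 0 < x := by positivity
  have hterm : ∀ S : Finset V, (2 : ℝ) ^ S.card * Real.exp (-(8 * Real.log n * S.card)) =
      x ^ S.card := by
    intro S
    have h1 : Real.exp (-(8 * Real.log n * S.card)) = (1 / n ^ 8) ^ S.card := by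
      rw [show -(8 * Real.log n * (S.card : ℝ)) = (S.card : ℝ) * (-((8 : ℕ) * Real.log n)) by
        push_cast; ring, Real.exp_nat_mul, Real.exp_neg, Real.exp_nat_mul, Real.exp_log hn0,
        one_div]
    rw [h1, ← mul_pow, hx]
    congr 1
    ring
  have h1 : ∑ S ∈ B.powerset.filter (fun S => S ≠ ∅), x ^ S.card = (x + 1) ^ B.card - 1 := by
    have h2 := Pool.Agent.Y936.EX.sum_pow_powerset B x
    have h3 : B.powerset = insert ∅ (B.powerset.filter (fun S => S ≠ ∅)) := by
      ext S
      simp only [Finset.mem_powerset, Finset.mem_insert, Finset.mem_filter]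
      constructor
      · intro h
        by_cases hS : S = ∅
        · exact Or.inl hS
        · exact Or.inr ⟨h, hS⟩
      · rintro (h | h)
        · rw [h]; exact Finset.empty_subset _
        · exact h.1
    rw [h3, Finset.sum_insert (by simp)] at h2
    simp only [Finset.card_empty, pow_zero] at h2
    linarith
  simp only [hterm]
  rw [h1]
  have hr1 : 1 ≤ r := by
    by_contra hcon
    have : r < 1 := not_le.1 hcon
    nlinarith
  have hrn : r ≤ n := by nlinarith
  have h4 : (x + 1) ^ B.card ≤ Real.exp (x * r) := by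
    calc (x + 1) ^ B.card ≤ Real.exp x ^ B.card :=
          pow_le_pow_left₀ (by positivity) (Real.add_one_le_exp x) _
      _ = Real.exp (B.card * x) := by rw [Real.exp_nat_mul]
      _ ≤ Real.exp (x * r) := by
          apply Real.exp_le_exp.2
          nlinarith
  have hxr : x * r ≤ 1 / (8 * n) := by
    have e1 : x * r ≤ x * n := mul_le_mul_of_nonneg_left hrn hx0.le
    have e2 : x * n = 2 / n ^ 7 := by
      rw [hx]; field_simp
    have e3 : (2 : ℝ) / n ^ 7 ≤ 1 / (8 * n) := by
      rw [div_le_div_iff₀ (by positivity) (by positivity)]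
      have e4 : (2 : ℝ) ^ 6 ≤ n ^ 6 := pow_le_pow_left₀ (by norm_num) hn 6
      have e5 : n ^ 7 = n ^ 6 * n := by ring
      rw [e5]
      nlinarith
    linarith
  have hxr0 : 0 ≤ x * r := by positivity
  have hxr1 : x * r ≤ 1 := by
    refine hxr.trans ?_
    rw [div_le_one (by positivity)]
    linarith
  have h5 : Real.exp (x * r) ≤ 1 + 2 * (x * r) := by
    have := Real.abs_exp_sub_one_le (x := x * r) (by rw [abs_of_nonneg hxr0]; exact hxr1)
    rw [abs_of_nonneg hxr0] at this
    have h6 := le_abs_self (Real.exp (x * r) - 1)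
    linarith
  have h7 : 2 * (x * r) ≤ 1 / (4 * n) := by
    have : 1 / (4 * n) = 2 * (1 / (8 * n)) := by field_simp; norm_num
    rw [this]
    linarith
  linarith

/-- Random places for one team: every set of places where the robber can be after `t` moves has
enough cops near it. -/
theorem team (V : Type) [Fintype V] (G : SimpleGraph V) (B : V → Finset V)
    (c : ℝ) (t k : ℕ) (hc : 0 < c) (hn : 2 ≤ Fintype.card V)
    (hball : ∀ v : V, ((B v).card : ℝ) ≤ √(Fintype.card V : ℝ))
    (hexp : ∀ v : V, ∀ S ⊆ B v, c * min (√(Fintype.card V : ℝ) *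
      Real.log (Fintype.card V) * S.card) (Fintype.card V) ≤ ((nb G)^[t + 1] S).card)
    (hk : 16 / c * √(Fintype.card V : ℝ) ≤ k) :
    ∃ f : Fin k → V, ∀ v : V, ∀ S ⊆ B v,
      S.card ≤ (Finset.univ.filter fun i => f i ∈ (nb G)^[t + 1] S).card := by
  have hne : Nonempty V := Fintype.card_pos_iff.1 (by omega)
  set n : ℝ := (Fintype.card V : ℝ) with hndef
  have hn2 : (2 : ℝ) ≤ n := by rw [hndef]; exact_mod_cast hn
  have hn0 : 0 < n := by linarith
  set r : ℝ := √n with hrdef
  have hrr : r * r = n := Real.mul_self_sqrt hn0.le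
  have hr0 : 0 < r := Real.sqrt_pos.2 hn0
  have hr1 : 1 ≤ r := by
    by_contra hcon
    have h1 : r < 1 := not_le.1 hcon
    nlinarith
  have hlog : 0 < Real.log n := Real.log_pos (by linarith)
  set θ : ℝ := Real.log n with hθdef
  set s : Finset (V × Finset V) := (Finset.univ : Finset V).biUnion fun v =>
    ((B v).powerset.filter (fun S => S ≠ ∅)).image fun S => (v, S) with hs
  have hterm : ∀ v : V, ∀ S ⊆ B v,
      (2 : ℝ) ^ S.card * Real.exp (-((k : ℝ) * ((nb G)^[t + 1] S).card / (2 * n))) ≤
      (2 : ℝ) ^ S.card * Real.exp (-(8 * θ * S.card)) +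
        (2 : ℝ) ^ S.card * Real.exp (-(8 * r)) := by
    intro v S hSv
    rw [← mul_add]
    refine mul_le_mul_of_nonneg_left ?_ (by positivity)
    have h1 := hexp v S hSv
    have h2 : 8 * min (θ * S.card) r ≤ (k : ℝ) * ((nb G)^[t + 1] S).card / (2 * n) := by
      rw [le_div_iff₀ (by positivity)]
      have h3 : 0 ≤ min (r * θ * S.card) n := le_min (by positivity) hn0.le
      have h4 : 16 / c * r * (c * min (r * θ * S.card) n) ≤
          (k : ℝ) * ((nb G)^[t + 1] S).card :=
        mul_le_mul hk h1 (by positivity) (by positivity)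
      have h5 : 16 / c * r * (c * min (r * θ * S.card) n) =
          16 * (r * min (r * θ * S.card) n) := by
        field_simp
      have h6 : r * min (r * θ * S.card) n = n * min (θ * S.card) r := by
        rw [mul_min_of_nonneg _ _ hr0.le, mul_min_of_nonneg _ _ hn0.le]
        congr 1
        · rw [← hrr]
          ring
        · rw [mul_comm]
      rw [h5, h6] at h4
      linarith
    rcases min_cases (θ * (S.card : ℝ)) r with ⟨h3, -⟩ | ⟨h3, -⟩
    · rw [h3] at h2
      have h4 : Real.exp (-((k : ℝ) * ((nb G)^[t + 1] S).card / (2 * n))) ≤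
          Real.exp (-(8 * θ * S.card)) := Real.exp_le_exp.2 (by linarith)
      have h5 := Real.exp_pos (-(8 * r))
      linarith
    · rw [h3] at h2
      have h4 : Real.exp (-((k : ℝ) * ((nb G)^[t + 1] S).card / (2 * n))) ≤
          Real.exp (-(8 * r)) := Real.exp_le_exp.2 (by linarith)
      have h5 := Real.exp_pos (-(8 * θ * S.card))
      linarith
  have hinj : ∀ v : V, ∀ A : Finset (Finset V),
      Set.InjOn (fun S : Finset V => (v, S)) (A : Set (Finset V)) := by
    intro v A S _ T _ hST
    exact (Prod.mk.inj hST).2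
  have hsum : ∑ j ∈ s, (2 : ℝ) ^ (j.2.card) *
      Real.exp (-((k : ℝ) * ((nb G)^[t + 1] j.2).card / (2 * Fintype.card V))) < 1 := by
    have hone : ∀ v : V, ∑ j ∈ ((B v).powerset.filter
        (fun S => S ≠ ∅)).image (fun S => (v, S)), (2 : ℝ) ^ (j.2.card) *
        Real.exp (-((k : ℝ) * ((nb G)^[t + 1] j.2).card / (2 * n))) ≤
        1 / (4 * n) + Real.exp (-(6 * r)) := by
      intro v
      rw [Finset.sum_image (hinj v _)]
      calc ∑ S ∈ (B v).powerset.filter (fun S => S ≠ ∅),
          (2 : ℝ) ^ (S.card) *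
            Real.exp (-((k : ℝ) * ((nb G)^[t + 1] S).card / (2 * n)))
          ≤ ∑ S ∈ (B v).powerset.filter (fun S => S ≠ ∅),
            ((2 : ℝ) ^ S.card * Real.exp (-(8 * θ * S.card)) +
              (2 : ℝ) ^ S.card * Real.exp (-(8 * r))) :=
            Finset.sum_le_sum fun S hS =>
              hterm v S (Finset.mem_powerset.1 (Finset.mem_filter.1 hS).1)
        _ = _ := Finset.sum_add_distrib
        _ ≤ 1 / (4 * n) + Real.exp (-(6 * r)) := by
            refine add_le_add (sum_ne _ n r hn2 hrr hr0.le (hball v)) ?_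
            refine le_trans ?_ (Pool.Agent.Y936.EX.sumB (B v) r r (hball v) le_rfl)
            exact Finset.sum_le_sum_of_subset_of_nonneg (Finset.filter_subset _ _)
              (fun S _ _ => by positivity)
    have hdisj : ∑ j ∈ s, (2 : ℝ) ^ (j.2.card) *
        Real.exp (-((k : ℝ) * ((nb G)^[t + 1] j.2).card / (2 * n))) ≤
        ∑ v : V, (1 / (4 * n) + Real.exp (-(6 * r))) := by
      rw [hs, Finset.sum_biUnion]
      · exact Finset.sum_le_sum fun v _ => hone v
      · intro u _ v _ huv
        rw [Function.onFun, Finset.disjoint_left]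
        intro j hj hj'
        obtain ⟨S, -, rfl⟩ := Finset.mem_image.1 hj
        obtain ⟨T, -, hT⟩ := Finset.mem_image.1 hj'
        exact huv (Prod.mk.inj hT).1.symm
    refine lt_of_le_of_lt hdisj ?_
    rw [Finset.sum_const, Finset.card_univ, nsmul_eq_mul, ← hndef, mul_add]
    have hA : n * (1 / (4 * n)) = 1 / 4 := by field_simp
    have hB : n * Real.exp (-(6 * r)) ≤ 1 / 2 := by
      have h1 : r ≤ Real.exp r := by
        have := Real.add_one_le_exp r
        linarith
      have h2 : n ≤ Real.exp r * Real.exp r := by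
        rw [← hrr]
        exact mul_le_mul h1 h1 hr0.le (Real.exp_pos _).le
      have h3 : n * Real.exp (-(6 * r)) ≤ Real.exp (-(4 * r)) := by
        calc n * Real.exp (-(6 * r)) ≤ Real.exp r * Real.exp r * Real.exp (-(6 * r)) :=
              mul_le_mul_of_nonneg_right h2 (Real.exp_pos _).le
          _ = Real.exp (-(4 * r)) := by
              rw [← Real.exp_add, ← Real.exp_add]
              congr 1
              ring
      have h4 : Real.exp (-(4 * r)) ≤ 1 / 2 := by
        have h5 : (2 : ℝ) ≤ Real.exp (4 * r) := by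
          have := Real.add_one_le_exp (4 * r)
          linarith
        rw [Real.exp_neg, ← one_div]
        exact one_div_le_one_div_of_le (by norm_num) h5
      linarith
    linarith
  obtain ⟨f, hf⟩ := Pool.Agent.Y421.EX.place V k (V × Finset V) s (fun j => (nb G)^[t + 1] j.2)
    (fun j => j.2.card) hsum
  refine ⟨f, fun v S hS => ?_⟩
  by_cases hS0 : S = ∅
  · rw [hS0, Finset.card_empty]
    exact Nat.zero_le _
  · refine hf (v, S) ?_
    rw [hs, Finset.mem_biUnion]
    exact ⟨v, Finset.mem_univ v, Finset.mem_image.2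
      ⟨S, Finset.mem_filter.2 ⟨Finset.mem_powerset.2 hS, hS0⟩, rfl⟩⟩

end Pool.Agent.H8.MY
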